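import Mathlib

set_option autoImplicit false

/-! # MP_a30120_gt, Q1: a two-vertex simple closed quasigeodesic which is not an edge-loop

The tetrahedron is the regular one with vertices `(1,1,1), (1,-1,-1), (-1,1,-1), (-1,-1,1)`. -/

open Set EuclideanGeometry

namespace Pool.Agent.Results.MP_a30120_gt.RegularTetrahedron

/-- Euclidean 3-space -/
abbrev E3 := EuclideanSpace ℝ (Fin 3)

/-- The face of the tetrahedron opposite to the vertex `j`. -/
def face (V : Fin 4 → E3) (j : Fin 4) : Set E3 := convexHull ℝ (V '' {i | i ≠ j})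

/-- The total surface angle at the vertex `a` (sum of the angles at `V a` of the three faces
containing `V a`; the face opposite to `j` contributes the angle between the two remaining
vertices). -/
noncomputable def totalAngle (V : Fin 4 → E3) (a : Fin 4) : ℝ :=
  ∠ (V (a + 1)) (V a) (V (a + 2)) + ∠ (V (a + 2)) (V a) (V (a + 3)) +
    ∠ (V (a + 3)) (V a) (V (a + 1))

/-- Behaviour at a vertex `V a` of the tetrahedron: the curve arrives from the point `x` of the face
`g` and leaves to the point `y` of the face `g'`. The number `α` is one of the two surface angles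
between the two directions: the angle in the face if `g = g'`, and the sum of the angles with the
common edge `V a V b` of the two faces if `g ≠ g'`; the other surface angle is
`totalAngle V a - α`. Both have to be at most `π`. -/
def VertexCondition (V : Fin 4 → E3) (x y : E3) (g g' a : Fin 4) : Prop :=
  ∃ α : ℝ,
    ((g = g' ∧ α = ∠ x (V a) y) ∨
      (g ≠ g' ∧ ∃ b : Fin 4, b ≠ a ∧ b ≠ g ∧ b ≠ g' ∧ α = ∠ x (V a) (V b) + ∠ (V b) (V a) y)) ∧
    α ≤ Real.pi ∧ totalAngle V a - α ≤ Real.pi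

/-- Behaviour at a point `z` in the relative interior of an edge `V a V b`: the curve passes from
the face `g` to the other face `g'` at this edge, and the two surface angles are equal to `π`. -/
def EdgeCondition (V : Fin 4 → E3) (x z y : E3) (g g' : Fin 4) : Prop :=
  ∃ a b : Fin 4, a ≠ b ∧ z ∈ openSegment ℝ (V a) (V b) ∧ g ≠ g' ∧ g ≠ a ∧ g ≠ b ∧ g' ≠ a ∧ g' ≠ b ∧
    ∠ x z (V a) + ∠ (V a) z y = Real.pi ∧ ∠ x z (V b) + ∠ (V b) z y = Real.pi

/-- A simple closed quasigeodesic on the surface of the tetrahedron `V`, given as a closed polygon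
`q 0, q 1, ..., q (m - 1), q 0` whose `i`-th segment lies in the face opposite to `f i`, and whose
nodes are vertices of the tetrahedron or lie in the relative interiors of its edges. -/
structure IsSimpleClosedQuasigeodesic (V : Fin 4 → E3) {m : ℕ} [NeZero m] (q : Fin m → E3)
    (f : Fin m → Fin 4) : Prop where
  three_le : 3 ≤ m
  mem_face : ∀ i, q i ∈ face V (f i) ∧ q (i + 1) ∈ face V (f i)
  inj : Function.Injective q
  simple : ∀ i j, i ≠ j → segment ℝ (q i) (q (i + 1)) ∩ segment ℝ (q j) (q (j + 1)) ⊆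
    {q i, q (i + 1)} ∩ {q j, q (j + 1)}
  node : ∀ i, (∃ a : Fin 4, q (i + 1) = V a ∧ f i ≠ a ∧ f (i + 1) ≠ a ∧
      VertexCondition V (q i) (q (i + 2)) (f i) (f (i + 1)) a) ∨
    EdgeCondition V (q i) (q (i + 1)) (q (i + 2)) (f i) (f (i + 1))

/-- The curve as a point set. -/
def curve {m : ℕ} [NeZero m] (q : Fin m → E3) : Set E3 := ⋃ i, segment ℝ (q i) (q (i + 1))

/-! ### The example -/

/-- vertices of the regular tetrahedron -/
noncomputable def V : Fin 4 → E3 := ![!₂[1, 1, 1], !₂[1, -1, -1], !₂[-1, 1, -1], !₂[-1, -1, 1]]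

/-- nodes of the curve -/
noncomputable def q : Fin 8 → E3 :=
  ![!₂[1, 1, 1], !₂[-1, -1 / 2, 1 / 2], !₂[-1 / 3, -1, 1 / 3], !₂[1, 0, 0],
    !₂[-1 / 3, 1, -1 / 3], !₂[-1, 1 / 2, -1 / 2], !₂[1, -1, -1], !₂[-1, 0, 0]]

/-- faces -/
def f : Fin 8 → Fin 4 := ![1, 0, 2, 3, 1, 0, 0, 1]

lemma ext3 {x y : E3} (h0 : x 0 = y 0) (h1 : x 1 = y 1) (h2 : x 2 = y 2) : x = y := by
  ext i; fin_cases i
  · exact h0
  · exact h1
  · exact h2

lemma affineIndependent : AffineIndependent ℝ V := by
  rw [affineIndependent_iff_of_fintype]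
  intro w hw h
  rw [Finset.weightedVSub_eq_linear_combination _ hw] at h
  rw [Fin.sum_univ_four] at hw h
  have h0 := congrArg (fun z : E3 => z 0) h
  have h1 := congrArg (fun z : E3 => z 1) h
  have h2 := congrArg (fun z : E3 => z 2) h
  simp [V] at h0 h1 h2
  intro i
  fin_cases i <;> simp <;> linarith

lemma inner3 (x y : E3) : inner ℝ x y = x 0 * y 0 + x 1 * y 1 + x 2 * y 2 := by
  rw [PiLp.inner_apply, Fin.sum_univ_three]
  simp [mul_comm]

lemma norm3 (x : E3) : ‖x‖ ^ 2 = x 0 ^ 2 + x 1 ^ 2 + x 2 ^ 2 := by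
  rw [← real_inner_self_eq_norm_sq, inner3]; ring

lemma angle_sum {d1 d2 e : E3} (r : ℝ) (hr : 0 < r) (h1 : ‖d1‖ ^ 2 = r ^ 2 * ‖d2‖ ^ 2)
    (h2 : inner ℝ d1 e = -(r * inner ℝ d2 e)) :
    InnerProductGeometry.angle d1 e + InnerProductGeometry.angle e d2 = Real.pi := by
  have h3 : ‖d1‖ = r * ‖d2‖ := by
    rw [← abs_of_nonneg (norm_nonneg d1), ← abs_of_nonneg (mul_nonneg hr.le (norm_nonneg d2))]
    apply (sq_eq_sq_iff_abs_eq_abs _ _).1
    rw [h1]; ring
  rw [InnerProductGeometry.angle_comm e d2]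
  unfold InnerProductGeometry.angle
  have h4 : inner ℝ d1 e / (‖d1‖ * ‖e‖) = -(inner ℝ d2 e / (‖d2‖ * ‖e‖)) := by
    rw [h2, h3, mul_assoc, neg_div, mul_div_mul_left _ _ hr.ne']
  rw [h4, Real.arccos_neg]; ring

lemma angle_third {d e : E3} (h1 : ‖d‖ ^ 2 = 8) (h2 : ‖e‖ ^ 2 = 8) (h3 : inner ℝ d e = 4) :
    InnerProductGeometry.angle d e = Real.pi / 3 := by
  unfold InnerProductGeometry.angle
  have h4 : ‖d‖ = ‖e‖ := by
    rw [← abs_of_nonneg (norm_nonneg d), ← abs_of_nonneg (norm_nonneg e)]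
    apply (sq_eq_sq_iff_abs_eq_abs _ _).1
    rw [h1, h2]
  have h5 : inner ℝ d e / (‖d‖ * ‖e‖) = Real.cos (Real.pi / 3) := by
    rw [h3, ← h4, ← sq, h1, Real.cos_pi_div_three]; norm_num
  rw [h5, Real.arccos_cos (by positivity) (by linarith [Real.pi_pos])]

lemma mem_face_of (a b j : Fin 4) (ha : a ≠ j) (hb : b ≠ j) (s t : ℝ) (hs : 0 ≤ s) (ht : 0 ≤ t)
    (hst : s + t = 1) {x : E3} (hx : s • V a + t • V b = x) : x ∈ face V j := by
  rw [← hx]
  have h1 : V a ∈ V '' {i | i ≠ j} := Set.mem_image_of_mem V ha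
  have h2 : V b ∈ V '' {i | i ≠ j} := Set.mem_image_of_mem V hb
  exact (convex_convexHull ℝ _) (subset_convexHull ℝ _ h1) (subset_convexHull ℝ _ h2) hs ht hst

lemma q0 : (1 : ℝ) • V 0 + (0 : ℝ) • V 0 = q 0 := by
  apply ext3 <;> simp [V, q]
lemma q1 : (1 / 4 : ℝ) • V 2 + (3 / 4 : ℝ) • V 3 = q 1 := by
  apply ext3 <;> simp [V, q] <;> norm_num
lemma q2 : (2 / 3 : ℝ) • V 3 + (1 / 3 : ℝ) • V 1 = q 2 := by
  apply ext3 <;> simp [V, q] <;> norm_num
lemma q3 : (1 / 2 : ℝ) • V 0 + (1 / 2 : ℝ) • V 1 = q 3 := by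
  apply ext3 <;> simp [V, q] <;> norm_num
lemma q4 : (1 / 3 : ℝ) • V 0 + (2 / 3 : ℝ) • V 2 = q 4 := by
  apply ext3 <;> simp [V, q] <;> norm_num
lemma q5 : (3 / 4 : ℝ) • V 2 + (1 / 4 : ℝ) • V 3 = q 5 := by
  apply ext3 <;> simp [V, q] <;> norm_num
lemma q6 : (1 : ℝ) • V 1 + (0 : ℝ) • V 1 = q 6 := by
  apply ext3 <;> simp [V, q]
lemma q7 : (1 / 2 : ℝ) • V 2 + (1 / 2 : ℝ) • V 3 = q 7 := by
  apply ext3 <;> simp [V, q] <;> norm_num

lemma mem_face' : ∀ i, q i ∈ face V (f i) ∧ q (i + 1) ∈ face V (f i) := by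
  intro i
  fin_cases i
  · exact ⟨mem_face_of 0 0 1 (by decide) (by decide) _ _ (by norm_num) (by norm_num) (by norm_num) q0,
      mem_face_of 2 3 1 (by decide) (by decide) _ _ (by norm_num) (by norm_num) (by norm_num) q1⟩
  · exact ⟨mem_face_of 2 3 0 (by decide) (by decide) _ _ (by norm_num) (by norm_num) (by norm_num) q1,
      mem_face_of 3 1 0 (by decide) (by decide) _ _ (by norm_num) (by norm_num) (by norm_num) q2⟩
  · exact ⟨mem_face_of 3 1 2 (by decide) (by decide) _ _ (by norm_num) (by norm_num) (by norm_num) q2,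
      mem_face_of 0 1 2 (by decide) (by decide) _ _ (by norm_num) (by norm_num) (by norm_num) q3⟩
  · exact ⟨mem_face_of 0 1 3 (by decide) (by decide) _ _ (by norm_num) (by norm_num) (by norm_num) q3,
      mem_face_of 0 2 3 (by decide) (by decide) _ _ (by norm_num) (by norm_num) (by norm_num) q4⟩
  · exact ⟨mem_face_of 0 2 1 (by decide) (by decide) _ _ (by norm_num) (by norm_num) (by norm_num) q4,
      mem_face_of 2 3 1 (by decide) (by decide) _ _ (by norm_num) (by norm_num) (by norm_num) q5⟩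
  · exact ⟨mem_face_of 2 3 0 (by decide) (by decide) _ _ (by norm_num) (by norm_num) (by norm_num) q5,
      mem_face_of 1 1 0 (by decide) (by decide) _ _ (by norm_num) (by norm_num) (by norm_num) q6⟩
  · exact ⟨mem_face_of 1 1 0 (by decide) (by decide) _ _ (by norm_num) (by norm_num) (by norm_num) q6,
      mem_face_of 2 3 0 (by decide) (by decide) _ _ (by norm_num) (by norm_num) (by norm_num) q7⟩
  · exact ⟨mem_face_of 2 3 1 (by decide) (by decide) _ _ (by norm_num) (by norm_num) (by norm_num) q7,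
      mem_face_of 0 0 1 (by decide) (by decide) _ _ (by norm_num) (by norm_num) (by norm_num) q0⟩

lemma edge_of (x z y : E3) (g g' a b : Fin 4) (hab : a ≠ b) (s t : ℝ) (hs : 0 < s) (ht : 0 < t)
    (hst : s + t = 1) (hz : s • V a + t • V b = z) (h1 : g ≠ g') (h2 : g ≠ a) (h3 : g ≠ b)
    (h4 : g' ≠ a) (h5 : g' ≠ b) (r : ℝ) (hr : 0 < r)
    (hn : ‖x - z‖ ^ 2 = r ^ 2 * ‖y - z‖ ^ 2)
    (ha : inner ℝ (x - z) (V a - z) = -(r * inner ℝ (y - z) (V a - z)))
    (hb : inner ℝ (x - z) (V b - z) = -(r * inner ℝ (y - z) (V b - z))) :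
    EdgeCondition V x z y g g' :=
  ⟨a, b, hab, ⟨s, t, hs, ht, hst, hz⟩, h1, h2, h3, h4, h5, angle_sum r hr hn ha,
    angle_sum r hr hn hb⟩

lemma total_le (a : Fin 4) (ha : a = 0 ∨ a = 1) : totalAngle V a ≤ Real.pi := by
  have key : ∀ b c : Fin 4, b ≠ a → c ≠ a → b ≠ c → ∠ (V b) (V a) (V c) = Real.pi / 3 := by
    intro b c hb hc hbc
    apply angle_third
    · rw [norm3]
      rcases ha with rfl | rfl <;> fin_cases b <;> first
        | exact absurd rfl hb
        | (simp [V]; norm_num)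
    · rw [norm3]
      rcases ha with rfl | rfl <;> fin_cases c <;> first
        | exact absurd rfl hc
        | (simp [V]; norm_num)
    · rw [inner3]
      rcases ha with rfl | rfl <;> fin_cases b <;> first
        | exact absurd rfl hb
        | (fin_cases c <;> first
            | exact absurd rfl hc
            | exact absurd rfl hbc
            | (simp [V]; norm_num))
  unfold totalAngle
  rw [key, key, key]
  · linarith
  all_goals rcases ha with rfl | rfl <;> decide

lemma node' : ∀ i, (∃ a : Fin 4, q (i + 1) = V a ∧ f i ≠ a ∧ f (i + 1) ≠ a ∧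
      VertexCondition V (q i) (q (i + 2)) (f i) (f (i + 1)) a) ∨
    EdgeCondition V (q i) (q (i + 1)) (q (i + 2)) (f i) (f (i + 1)) := by
  intro i
  fin_cases i
  · right
    refine edge_of (q 0) (q 1) (q 2) 1 0 2 3 (by decide) _ _ (by norm_num) (by norm_num)
      (by norm_num) q1 (by decide) (by decide) (by decide) (by decide) (by decide) 3 (by norm_num)
      ?_ ?_ ?_
    · rw [norm3, norm3]; simp [q] <;> norm_num
    · rw [inner3, inner3]; simp [q, V] <;> norm_num
    · rw [inner3, inner3]; simp [q, V] <;> norm_num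
  · right
    refine edge_of (q 1) (q 2) (q 3) 0 2 3 1 (by decide) _ _ (by norm_num) (by norm_num)
      (by norm_num) q2 (by decide) (by decide) (by decide) (by decide) (by decide) (1 / 2)
      (by norm_num) ?_ ?_ ?_
    · rw [norm3, norm3]; simp [q] <;> norm_num
    · rw [inner3, inner3]; simp [q, V] <;> norm_num
    · rw [inner3, inner3]; simp [q, V] <;> norm_num
  · right
    refine edge_of (q 2) (q 3) (q 4) 2 3 0 1 (by decide) _ _ (by norm_num) (by norm_num)
      (by norm_num) q3 (by decide) (by decide) (by decide) (by decide) (by decide) 1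
      (by norm_num) ?_ ?_ ?_
    · rw [norm3, norm3]; simp [q] <;> norm_num
    · rw [inner3, inner3]; simp [q, V] <;> norm_num
    · rw [inner3, inner3]; simp [q, V] <;> norm_num
  · right
    refine edge_of (q 3) (q 4) (q 5) 3 1 0 2 (by decide) _ _ (by norm_num) (by norm_num)
      (by norm_num) q4 (by decide) (by decide) (by decide) (by decide) (by decide) 2
      (by norm_num) ?_ ?_ ?_
    · rw [norm3, norm3]; simp [q] <;> norm_num
    · rw [inner3, inner3]; simp [q, V] <;> norm_num
    · rw [inner3, inner3]; simp [q, V] <;> norm_num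
  · right
    refine edge_of (q 4) (q 5) (q 6) 1 0 2 3 (by decide) _ _ (by norm_num) (by norm_num)
      (by norm_num) q5 (by decide) (by decide) (by decide) (by decide) (by decide) (1 / 3)
      (by norm_num) ?_ ?_ ?_
    · rw [norm3, norm3]; simp [q] <;> norm_num
    · rw [inner3, inner3]; simp [q, V] <;> norm_num
    · rw [inner3, inner3]; simp [q, V] <;> norm_num
  · left
    refine ⟨1, rfl, by decide, by decide, _, Or.inl ⟨rfl, rfl⟩, angle_le_pi _ _ _, ?_⟩
    have h1 := total_le 1 (Or.inr rfl)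
    have h2 := angle_nonneg (q 5) (V 1) (q 7)
    change totalAngle V 1 - ∠ (q 5) (V 1) (q 7) ≤ Real.pi
    linarith
  · right
    refine edge_of (q 6) (q 7) (q 0) 0 1 2 3 (by decide) _ _ (by norm_num) (by norm_num)
      (by norm_num) q7 (by decide) (by decide) (by decide) (by decide) (by decide) 1
      (by norm_num) ?_ ?_ ?_
    · rw [norm3, norm3]; simp [q] <;> norm_num
    · rw [inner3, inner3]; simp [q, V] <;> norm_num
    · rw [inner3, inner3]; simp [q, V] <;> norm_num
  · left
    refine ⟨0, rfl, by decide, by decide, _, Or.inl ⟨rfl, rfl⟩, angle_le_pi _ _ _, ?_⟩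
    have h1 := total_le 0 (Or.inl rfl)
    have h2 := angle_nonneg (q 7) (V 0) (q 1)
    change totalAngle V 0 - ∠ (q 7) (V 0) (q 1) ≤ Real.pi
    linarith

/-- coordinates of a point of a segment -/
lemma seg_coord {x y p : E3} (h : p ∈ segment ℝ x y) : ∃ a b : ℝ, 0 ≤ a ∧ 0 ≤ b ∧ a + b = 1 ∧
    p 0 = a * x 0 + b * y 0 ∧ p 1 = a * x 1 + b * y 1 ∧ p 2 = a * x 2 + b * y 2 := by
  obtain ⟨a, b, ha, hb, hab, rfl⟩ := h
  exact ⟨a, b, ha, hb, hab, by simp, by simp, by simp⟩

lemma inj' : Function.Injective q := by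
  intro i j h
  have h0 := congrArg (fun z : E3 => z 0) h
  have h1 := congrArg (fun z : E3 => z 1) h
  have h2 := congrArg (fun z : E3 => z 2) h
  fin_cases i <;> fin_cases j <;> first
    | rfl
    | (exfalso; norm_num [q] at h0; done)
    | (exfalso; norm_num [q] at h1; done)
    | (exfalso; norm_num [q] at h2; done)

lemma simple_lt : ∀ i j : Fin 8, i < j → segment ℝ (q i) (q (i + 1)) ∩ segment ℝ (q j) (q (j + 1)) ⊆
    {q i, q (i + 1)} ∩ {q j, q (j + 1)} := by
  rintro i j hij p ⟨hp1, hp2⟩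
  obtain ⟨a, b, ha, hb, hab, h0, h1, h2⟩ := seg_coord hp1
  obtain ⟨c, d, hc, hd, hcd, k0, k1, k2⟩ := seg_coord hp2
  simp only [Set.mem_inter_iff, Set.mem_insert_iff, Set.mem_singleton_iff]
  clear hp1 hp2
  fin_cases i <;> fin_cases j <;> first
    | exact absurd hij (by decide)
    | (exfalso
       simp [q] at h0 h1 h2 k0 k1 k2
       linarith)
    | (refine ⟨Or.inr ?_, Or.inl ?_⟩ <;>
        (simp [q] at h0 h1 h2 k0 k1 k2
         have ha0 : a = 0 := by linarith
         apply ext3 <;> simp [q] <;> linarith))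
    | (refine ⟨Or.inl ?_, Or.inr ?_⟩ <;>
        (simp [q] at h0 h1 h2 k0 k1 k2
         have hb0 : b = 0 := by linarith
         apply ext3 <;> simp [q] <;> linarith))

lemma isQuasigeodesic : IsSimpleClosedQuasigeodesic V q f where
  three_le := by norm_num
  mem_face := mem_face'
  inj := inj'
  simple i j hij := by
    rcases lt_or_gt_of_ne hij with h | h
    · exact simple_lt i j h
    · rw [Set.inter_comm, Set.inter_comm {q i, q (i + 1)}]
      exact simple_lt j i h
  node := node'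

lemma vertex_mem (j : Fin 4) : V j ∈ curve q ↔ j = 0 ∨ j = 1 := by
  constructor
  · intro h
    obtain ⟨i, hi⟩ := mem_iUnion.1 h
    obtain ⟨a, b, ha, hb, hab, h0, h1, h2⟩ := seg_coord hi
    clear h hi
    fin_cases j
    · simp
    · simp
    · exfalso
      fin_cases i <;> (simp [q, V] at h0 h1 h2; linarith)
    · exfalso
      fin_cases i <;> (simp [q, V] at h0 h1 h2; linarith)
  · rintro (rfl | rfl)
    · exact mem_iUnion.2 ⟨0, left_mem_segment ℝ _ _⟩
    · exact mem_iUnion.2 ⟨6, left_mem_segment ℝ _ _⟩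

/-- a point of the edge `V 0 V 1` -/
noncomputable def w : E3 := !₂[1, 1 / 2, 1 / 2]

lemma w_notMem : w ∉ curve q := by
  intro h
  obtain ⟨i, hi⟩ := mem_iUnion.1 h
  obtain ⟨a, b, ha, hb, hab, h0, h1, h2⟩ := seg_coord hi
  clear h hi
  fin_cases i <;> (simp [q, w] at h0 h1 h2; linarith)

/-- There is a tetrahedron (the regular one) with a simple closed quasigeodesic which passes through
exactly two vertices and does not contain the edge joining them. -/
theorem result : ∃ V : Fin 4 → E3, AffineIndependent ℝ V ∧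
    ∃ (m : ℕ) (_ : NeZero m) (q : Fin m → E3) (f : Fin m → Fin 4),
      IsSimpleClosedQuasigeodesic V q f ∧ {j | V j ∈ curve q}.ncard = 2 ∧
      ∀ i j : Fin 4, i ≠ j → V i ∈ curve q → V j ∈ curve q →
        ¬ segment ℝ (V i) (V j) ⊆ curve q := by
  refine ⟨V, affineIndependent, 8, inferInstance, q, f, isQuasigeodesic, ?_, ?_⟩
  · have : {j | V j ∈ curve q} = {0, 1} := by
      ext j
      simp only [Set.mem_setOf_eq, vertex_mem, Set.mem_insert_iff, Set.mem_singleton_iff]
    rw [this, Set.ncard_pair (by decide)]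
  · intro i j hij hi hj hsub
    rw [vertex_mem] at hi hj
    have h01 : w ∈ segment ℝ (V 0) (V 1) := by
      refine ⟨3 / 4, 1 / 4, by norm_num, by norm_num, by norm_num, ?_⟩
      apply ext3 <;> simp [V, w] <;> norm_num
    have h10 : w ∈ segment ℝ (V 1) (V 0) := by rw [segment_symm]; exact h01
    rcases hi with rfl | rfl <;> rcases hj with rfl | rfl
    · exact hij rfl
    · exact w_notMem (hsub h01)
    · exact w_notMem (hsub h10)
    · exact hij rfl

end Pool.Agent.Results.MP_a30120_gt.RegularTetrahedron
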